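import Mathlib
import Pool.Agent.H.MP_339e98_lc.Lexi

set_option autoImplicit false

open Pool.Agent.H.MP_339e98_lc

namespace Pool.Agent.Results.MP_339e98_lc.SingleChain

theorem result :
    ¬ SCC (fun _ _ => True) ∧ ¬ SCC (fun A _ => IsInv A) ∧ SCC (fun A _ => IsPi A) :=
  ⟨not_scc _ trivial trivial, not_scc _ L5_inv A5_inv, scc_pi⟩

end Pool.Agent.Results.MP_339e98_lc.SingleChain
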